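import Pool.Agent.R110.MT.Pos

/-!
# A signed evaluation of the monotone triangle polynomial

For all `n` the monotone triangle polynomial `α (2 n + 1; ·)` takes the value `(-1) ^ n * A_n` at
the row `(1, ..., n + 1, 1, ..., n)`.

Idea of proof. The functional `α` satisfies a quadratic relation for two and a cubic relation for
three neighbouring letters, in every context. In the algebra defined by these relations the right
module generated by the increasing run `R = T_0 ... T_n` satisfies the relations with
`T_(n+1) = 0`; hence `R R' T_b = R R = Ω_[0..n]` for `R' = T_0 ... T_(n-1)` and all `b ≤ n`, and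
nondegeneracy of the pairing with the letters (`Ω ≠ 0`) gives `R R' = Ω_[1..n] T_0`. The operator of
summation over the interlacing rows sends the latter to `(-1) ^ n Ω_[1..n]`.
-/

namespace Pool.Agent.Results.MP_ea94f4_co.SignedEvaluation

open Pool.Agent.R110.MT (IsAlpha mtc)

/-- the row `(1, ..., n + 1, 1, ..., n)` -/
def row (n : ℕ) (j : Fin (2 * n + 1)) : ℤ :=
  if (j : ℕ) < n + 1 then (j : ℤ) + 1 else (j : ℤ) - n

theorem result (n : ℕ) :
    ∃ P : MvPolynomial (Fin (2 * n + 1)) ℚ, IsAlpha (2 * n + 1) P ∧
      (∀ P' : MvPolynomial (Fin (2 * n + 1)) ℚ, IsAlpha (2 * n + 1) P' → P' = P) ∧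
      (mtc n (fun j : Fin n => (j : ℤ) + 1) : ℚ) =
        (-1) ^ n * MvPolynomial.eval (fun j : Fin (2 * n + 1) => (row n j : ℚ)) P := by
  open Pool.Agent.R110.MT in
  obtain ⟨P, hP, -⟩ := exists_alpha (2 * n + 1)
  refine ⟨P, hP, fun P' hP' => hP.unique hP', ?_⟩
  have h1 := hP.eval (fun j : Fin (2 * n + 1) => if (j : ℕ) < n + 1 then (j : ℕ) + 1 else j - n)
  have h2 : List.ofFn (fun j : Fin (2 * n + 1) =>
      if (j : ℕ) < n + 1 then (j : ℕ) + 1 else j - n) =
      List.map (fun x : ℕ => x + 1) (List.range' 0 (n + 1) ++ List.range' 0 n) := by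
    apply List.ext_getElem
    · simp only [List.length_ofFn, List.length_map, List.length_append, List.length_range']
      ring
    · intro j hj hj'
      rw [List.getElem_ofFn, List.getElem_map, List.getElem_append]
      simp only [List.length_range', List.getElem_range']
      split_ifs <;> omega
  have h3 : MvPolynomial.eval (fun j => (row n j : ℚ)) P =
      al 0 (List.map (fun x : ℕ => x + 1) (List.range' 0 (n + 1) ++ List.range' 0 n)) := by
    rw [← h2, ← h1]
    congr 2
    funext j
    simp only [row]
    split_ifs with h4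
    · push_cast; ring
    · push_cast [Nat.cast_sub (show n ≤ (j : ℕ) by omega)]
      ring
  rw [h3, al_trans, al_run, al_range, ← mul_assoc, ← pow_add, Even.neg_one_pow ⟨n, rfl⟩, one_mul]

end Pool.Agent.Results.MP_ea94f4_co.SignedEvaluation
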